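import Pool.Agent.W876.Cut.Ma
import Pool.Agent.W684.FM.Ambient

/-!
# MP_0eabd7_lc, Q2: a negative answer is consistent, for all countable lengths above one at once

(1) There is a forcing notion which preserves all cardinals and forces Martin's axiom for `ℵ₁`
dense sets.

(2) The form of Martin's axiom which is forced is equivalent to the usual one.

(3) Martin's axiom for `ℵ₁` dense sets implies that for no ordinal `α` with `1 < α < ω₁` there is a
Boolean algebra with property (P) and cardinal sequence `⟨ℵ₁, ℵ₁, …, 1⟩` of length `α`.

Definitions: `PropP`, `CardSeq`, `cb`, `Quo` are in `Pool.Agent.W876.Cut.Defs`. The forcing language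
is the one of `Pool.Agent.Helper669.Forcing`: a sentence is the set of the conditions which force
it. `MartinFor X` (in `Pool.Agent.W684.FM.Defs`) is Martin's axiom for preorders with underlying set
`X` and `X`-indexed families of dense sets, and `MartinHolds P X` is its literal translation into
the forcing language; `Om1` is the set of the countable ordinals. `MartinAxiomAleph1` (in
`Pool.Agent.W684.MADef`) is the usual form of Martin's axiom for `ℵ₁` dense sets.
-/

set_option autoImplicit false

namespace Pool.Agent.Results.MP_0eabd7_lc.CountableLengthConsistent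

open Pool.Agent.Helper669.Forcing Pool.Agent.W684 Pool.Agent.W684.FM

/-- (1) Some preordered set `P` of forcing conditions forces that all cardinals are preserved, that
`ω₁` is preserved and that Martin's axiom for `ℵ₁` dense sets holds. (2) The form of Martin's axiom
in (1) is equivalent to the usual one. (3) If Martin's axiom for `ℵ₁` dense sets holds then, for
every ordinal `α` with `1 < α < ω₁`, no Boolean algebra with property (P) has the cardinal sequence
`⟨ℵ₁, ℵ₁, …, 1⟩` of length `α`. -/
theorem result :
    (∃ (P : Type) (_ : Preorder P), Nonempty P ∧ ∀ p : P,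
      p ∈ CardinalsPreserved.{0, 0} P ∧ p ∈ OmegaOnePreserved P ∧ p ∈ MartinHolds P Om1) ∧
    (MartinFor Om1 ↔ MartinAxiomAleph1) ∧
    (MartinAxiomAleph1 → ∀ α : Ordinal.{0}, 1 < α → α < Ordinal.omega 1 →
      ¬ ∃ (B : Type) (_ : BooleanAlgebra B),
        Pool.Agent.W876.Cut.PropP B ∧ Pool.Agent.W876.Cut.CardSeq B (Cardinal.aleph 1) α) := by
  refine ⟨Pool.Agent.W684.FM.exists_forcing Om1, martinFor_om1_iff, ?_⟩
  rintro hMA α h1 hα ⟨B, hB, hP, hC⟩
  rw [← Cardinal.ord_aleph] at hα
  refine Pool.Agent.W876.Cut.no_cardSeq ?_ h1 hα hP hC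
  intro Q _ _ hQ D hD hd
  refine hMA Q ?_ D hD hd
  intro A hA
  by_contra hc
  obtain ⟨p, hp, q, hq, hpq, r, hr⟩ := hQ A hc
  exact hA p hp q hq hpq ⟨r, hr⟩

end Pool.Agent.Results.MP_0eabd7_lc.CountableLengthConsistent
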